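import Mathlib
import Pool.Agent.H32.Khin

open MeasureTheory Set Filter Topology

namespace Pool.Agent.Results.MP_1ea763_an.Meagre

/-- `(l n)` (indexed from `0`) is an `L¹`-Khintchin sequence on the circle `ℝ/ℤ`. -/
def Khintchin (l : ℕ → ℕ) : Prop :=
  ∀ f : UnitAddCircle → ℝ, Integrable f → ∀ᵐ x : UnitAddCircle,
    Tendsto (fun N : ℕ => (∑ n ∈ Finset.range N, f (l n • x)) / N) atTop (𝓝 (∫ y, f y))

theorem result : IsMeagre {ω : ℕ → {k : ℕ // 2 ≤ k} |
    Khintchin fun n => ∏ i ∈ Finset.range (n + 1), (ω i : ℕ)} :=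
  Pool.Agent.H32.Khin.meagre {k | 2 ≤ k} (by simp) (by simp) (by simp)

end Pool.Agent.Results.MP_1ea763_an.Meagre
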